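import Mathlib

namespace Pool.Agent.H.MP_94e09c_pr
open FreeGroup

abbrev F := FreeGroup (Fin 2)
abbrev Lt := Fin 2 × Bool

/-- a rooted-at-an-end ternary tree structure -/
structure Tr (X : Type) where
  p : X → X
  b : X → ℤ
  ch : X → Fin 3 → X
  bp : ∀ x, b (p x) = b x - 1
  pch : ∀ x i, p (ch x i) = x
  inj : ∀ x, Function.Injective (ch x)
  sur : ∀ z, ∃ i, ch (p z) i = z
  anc : ∀ x y, ∃ i j, p^[i] x = p^[j] y
  ne : Nonempty X

def AA : Lt := (0, false)

def lev : List Lt → ℤ
  | [] => 0
  | s :: w => if ∀ l ∈ s :: w, l = AA then lev w - 1 else lev w + 1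

def el (s : Lt) : F := mk [s]

def par (y : F) : F := if ∀ l ∈ y.toWord, l = AA then el AA * y else mk y.toWord.tail

lemma el_inj : Function.Injective el := by
  intro s t h
  have := congrArg toWord h
  simpa [el, toWord_mk, reduce_singleton] using this

lemma el_inv (s : Lt) : el (s.1, !s.2) = (el s)⁻¹ := by
  simp [el, inv_mk, invRev]

lemma word_el (s : Lt) (y : F) : (el s * y).toWord = reduce (s :: y.toWord) := by
  conv_lhs => rw [← mk_toWord (x := y)]
  rw [el, mul_mk, toWord_mk]; rfl

lemma word_cases (s : Lt) (y : F) : (el s * y).toWord = s :: y.toWord ∨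
    y.toWord = (s.1, !s.2) :: (el s * y).toWord := by
  rw [word_el, reduce.cons, reduce_toWord]
  rcases h : y.toWord with _ | ⟨hd, tl⟩
  · simp
  · by_cases hc : s.1 = hd.1 ∧ s.2 = !hd.2
    · right
      simp only [hc, and_self, if_true, Bool.not_not]
    · left
      simp only [hc, if_false]

lemma word_tail (y : F) : (mk y.toWord.tail : F).toWord = y.toWord.tail := by
  rw [toWord_mk]
  have h := isReduced_toWord (x := y)
  apply IsReduced.reduce_eq
  exact List.IsChain.tail h

lemma word_AA (y : F) (h : ∀ l ∈ y.toWord, l = AA) : (el AA * y).toWord = AA :: y.toWord := by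
  rcases word_cases AA y with h1 | h1
  · exact h1
  · have := h (AA.1, !AA.2) (by rw [h1]; simp)
    simp [AA] at this

lemma lev_par (y : F) : lev (par y).toWord = lev y.toWord - 1 := by
  unfold par
  split_ifs with h
  · rw [word_AA y h, lev, if_pos]
    intro l hl
    rcases List.mem_cons.1 hl with h1 | h1
    · exact h1
    · exact h l h1
  · rw [word_tail]
    rcases hw : y.toWord with _ | ⟨s, w⟩
    · simp [hw] at h
    · rw [hw] at h
      rw [lev, if_neg h]; simp

lemma par_el (y : F) : ∃ s, par y = el s * y := by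
  unfold par
  split_ifs with h
  · exact ⟨_, rfl⟩
  · rcases hw : y.toWord with _ | ⟨s, w⟩
    · simp [hw] at h
    · refine ⟨(s.1, !s.2), ?_⟩
      rw [el_inv, eq_inv_mul_iff_mul_eq, el, mul_mk, ← mk_toWord (x := y), hw]; rfl

lemma key (s : Lt) (y : F) (h : (el s * y).toWord = s :: y.toWord) :
    par y = el s * y ∨ par (el s * y) = y := by
  by_cases hP : ∀ l ∈ (el s * y).toWord, l = AA
  · left
    rw [h] at hP
    have hs : s = AA := hP s (by simp)
    rw [par, if_pos (fun l hl => hP l (by simp [hl])), hs]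
  · right
    rw [par, if_neg hP, h, List.tail_cons, mk_toWord]

lemma par_or (s : Lt) (y : F) : par y = el s * y ∨ par (el s * y) = y := by
  rcases word_cases s y with h | h
  · exact key s y h
  · have e : el (s.1, !s.2) * (el s * y) = y := by rw [el_inv]; group
    have := key (s.1, !s.2) (el s * y) (by rw [e]; exact h)
    rw [e] at this
    exact this.symm

def pr (x : F) : F := (par x⁻¹)⁻¹
def lv (x : F) : ℤ := lev (x⁻¹).toWord

lemma lv_pr (x : F) : lv (pr x) = lv x - 1 := by simp [lv, pr, lev_par]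

lemma pr_el (x : F) : ∃ s, pr x = x * el s := by
  obtain ⟨s, hs⟩ := par_el x⁻¹
  exact ⟨(s.1, !s.2), by rw [pr, hs, el_inv]; group⟩

lemma pr_or (s : Lt) (x : F) : pr x = x * el s ∨ pr (x * el s) = x := by
  rcases par_or (s.1, !s.2) x⁻¹ with h | h
  · left; rw [pr, h, el_inv]; group
  · right
    rw [el_inv] at h
    rw [pr, mul_inv_rev, h, inv_inv]

lemma el_of (a : Fin 2) : el (a, true) = of a := rfl

lemma el_cases (s : Lt) : ∃ a, el s = of a ∨ el s = (of a)⁻¹ := by
  rcases s with ⟨a, _ | _⟩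
  · exact ⟨a, Or.inr (el_inv (a, true))⟩
  · exact ⟨a, Or.inl rfl⟩

lemma anc (x y : F) : ∃ i j, pr^[i] x = pr^[j] y := by
  have tr : ∀ x y z : F, (∃ i j, pr^[i] x = pr^[j] y) → (∃ i j, pr^[i] y = pr^[j] z) →
      ∃ i j, pr^[i] x = pr^[j] z := by
    rintro x y z ⟨i, j, h⟩ ⟨k, l, h'⟩
    refine ⟨k + i, j + l, ?_⟩
    rw [Function.iterate_add_apply, h, ← Function.iterate_add_apply, add_comm k j,
      Function.iterate_add_apply, h', ← Function.iterate_add_apply]
  have st : ∀ (x : F) (s : Lt), ∃ i j, pr^[i] x = pr^[j] (x * el s) := by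
    intro x s
    rcases pr_or s x with h | h
    · exact ⟨1, 0, h⟩
    · exact ⟨0, 1, h.symm⟩
  have one : ∀ x : F, ∃ i j, pr^[i] 1 = pr^[j] x := by
    intro x
    have hx : x ∈ Subgroup.closure (Set.range (of : Fin 2 → F)) := by
      rw [closure_range_of]; trivial
    induction hx using Subgroup.closure_induction_right with
    | one => exact ⟨0, 0, rfl⟩
    | mul_right x hx y hy ih =>
      obtain ⟨a, rfl⟩ := hy
      exact tr _ _ _ ih (st x (a, true))
    | mul_inv_cancel x hx y hy ih =>
      obtain ⟨a, rfl⟩ := hy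
      have := st x (a, false)
      rw [show el (a, false) = (of a)⁻¹ from el_inv (a, true)] at this
      exact tr _ _ _ ih this
  obtain ⟨i, j, h⟩ := one x
  exact tr _ _ _ ⟨j, i, h.symm⟩ (one y)

theorem tree : ∃ T : Tr F, (∀ x, ∃ a, T.p x = x * of a ∨ x = T.p x * of a) ∧
    (∀ x a, T.p x = x * of a ∨ T.p (x * of a) = x) := by
  obtain ⟨e⟩ : Nonempty (Fin 4 ≃ Lt) := ⟨(Fintype.equivFinOfCardEq (by simp)).symm⟩
  choose s0 hs0 using pr_el
  refine ⟨⟨pr, lv, fun x i => x * el (e ((e.symm (s0 x)).succAbove i)), lv_pr, ?_, ?_, ?_, anc,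
    ⟨1⟩⟩, ?_, ?_⟩
  · intro x i
    rcases pr_or (e ((e.symm (s0 x)).succAbove i)) x with h | h
    · rw [hs0 x] at h
      have h1 := el_inj (mul_left_cancel h)
      have h2 : e.symm (s0 x) = (e.symm (s0 x)).succAbove i := by
        conv_lhs => rw [h1]
        simp
      exact absurd h2.symm (Fin.succAbove_ne _ _)
    · exact h
  · intro x i j h
    exact Fin.succAbove_right_injective (e.injective (el_inj (mul_left_cancel h)))
  · intro z
    have h1 : e.symm ((s0 z).1, !(s0 z).2) ≠ e.symm (s0 (pr z)) := by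
      intro h
      have h2 := e.symm.injective h
      have h3 : pr (pr z) = z := by
        rw [hs0 (pr z), ← h2, el_inv, hs0 z]; group
      have h4 := lv_pr (pr z)
      rw [h3, lv_pr] at h4
      omega
    obtain ⟨i, hi⟩ := Fin.exists_succAbove_eq h1
    refine ⟨i, ?_⟩
    simp only [hi, Equiv.apply_symm_apply, el_inv]
    rw [hs0 z]; group
  · intro x
    obtain ⟨a, h | h⟩ := el_cases (s0 x)
    · exact ⟨a, Or.inl (by simp only [hs0 x, h])⟩
    · exact ⟨a, Or.inr (by simp only [hs0 x, h]; group)⟩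
  · intro x a
    exact pr_or (a, true) x

end Pool.Agent.H.MP_94e09c_pr
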