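import Pool.Agent.H.MP_94e09c_pr.A

namespace Pool.Agent.H.MP_94e09c_pr
open Finset

variable {X : Type} (T : Tr X)

abbrev I := Unit ⊕ Fin 3 ⊕ Unit ⊕ Fin 3 ⊕ (Fin 3 × Fin 3) ⊕ Fin 3

lemma bch (x : X) (i : Fin 3) : T.b (T.ch x i) = T.b x + 1 := by
  have := T.bp (T.ch x i); rw [T.pch] at this; omega

def nb (τ : ℤ → Bool) (v : X × X) : I → X × X
  | .inl _ => (T.p v.1, v.2)
  | .inr (.inl i) => (T.ch v.1 i, v.2)
  | .inr (.inr (.inl _)) => (v.1, T.p v.2)
  | .inr (.inr (.inr (.inl i))) => (v.1, T.ch v.2 i)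
  | .inr (.inr (.inr (.inr (.inl i)))) =>
      if τ (T.b v.1 + T.b v.2) then (T.p v.1, T.ch (T.ch v.2 i.1) i.2)
      else (T.ch (T.ch v.1 i.1) i.2, T.p v.2)
  | .inr (.inr (.inr (.inr (.inr i)))) =>
      if τ (T.b v.1 + T.b v.2 - 1) then (T.ch v.1 i, T.p (T.p v.2))
      else (T.p (T.p v.1), T.ch v.2 i)

/-- the averaging operator on level functions -/
def op (τ : ℤ → Bool) (f : ℤ → ℤ → ℝ) (m l : ℤ) : ℝ :=
  f (m - 1) l + 3 * f (m + 1) l + f m (l - 1) + 3 * f m (l + 1) +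
    9 * (if τ (m + l) then f (m - 1) (l + 2) else f (m + 2) (l - 1)) +
    3 * (if τ (m + l - 1) then f (m + 1) (l - 2) else f (m - 2) (l + 1))

lemma sum_nb (τ : ℤ → Bool) (f : ℤ → ℤ → ℝ) (v : X × X) :
    ∑ i, f (T.b (nb T τ v i).1) (T.b (nb T τ v i).2) = op τ f (T.b v.1) (T.b v.2) := by
  simp only [Fintype.sum_sum_type, nb, op]
  have e1 : ∀ m : ℤ, m + 1 + 1 = m + 2 := fun m => by ring
  have e2 : ∀ m : ℤ, m - 1 - 1 = m - 2 := fun m => by ring
  split_ifs <;> simp [bch, T.bp, e1, e2] <;> ring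

lemma maxp {Ω : Type} (g : Ω → ℝ) (κ B : ℝ) (hκ : 0 < κ) (hb : ∀ ω, g ω ≤ B)
    (step : ∀ δ, 0 ≤ δ → (∀ ω, g ω ≤ δ) → ∀ ω, g ω ≤ 0 ∨ g ω ≤ δ - κ) (ω : Ω) : g ω ≤ 0 := by
  have h : ∀ k : ℕ, ∀ ω, g ω ≤ max 0 (B - k * κ) := by
    intro k
    induction k with
    | zero => intro ω; simpa using Or.inr (hb ω)
    | succ k ih =>
      intro ω
      rcases step _ (le_max_left _ _) ih ω with h | h
      · exact h.trans (le_max_left _ _)
      · rcases le_total 0 (B - k * κ) with h1 | h1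
        · rw [max_eq_right h1] at h
          refine le_trans ?_ (le_max_right _ _)
          push_cast; linarith
        · rw [max_eq_left h1] at h
          exact le_trans (by linarith) (le_max_left _ _)
  obtain ⟨k, hk⟩ := exists_nat_ge (B / κ)
  have := h k ω
  rw [div_le_iff₀ hκ] at hk
  rwa [max_eq_left (by linarith)] at this

def R (c : ℤ) (x x' : X) : Prop :=
  T.b x = T.b x' ∧ ∀ k : ℕ, T.b x - k ≤ c → T.p^[k] x = T.p^[k] x'

lemma R_p {c : ℤ} {x x' : X} (h : R T c x x') : R T c (T.p x) (T.p x') := by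
  refine ⟨by rw [T.bp, T.bp, h.1], fun k hk => ?_⟩
  rw [T.bp] at hk
  exact h.2 (k + 1) (by push_cast; omega)

lemma R_ch {c : ℤ} {x x' : X} (h : R T c x x') (i : Fin 3) : R T c (T.ch x i) (T.ch x' i) := by
  refine ⟨by rw [bch, bch, h.1], fun k hk => ?_⟩
  rw [bch] at hk
  rcases k with _ | k
  · have := h.2 0 (by push_cast at hk ⊢; omega)
    simp only [Function.iterate_zero, id] at this ⊢
    rw [this]
  · rw [Function.iterate_succ_apply, Function.iterate_succ_apply, T.pch, T.pch]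
    exact h.2 k (by push_cast at hk; omega)

lemma R_nb (τ : ℤ → Bool) {c : ℤ} {x x' : X} (h : R T c x x') (y : X) (i : I) :
    R T c (nb T τ (x, y) i).1 (nb T τ (x', y) i).1 ∧ (nb T τ (x, y) i).2 = (nb T τ (x', y) i).2 ∧
    T.b (nb T τ (x, y) i).1 + T.b (nb T τ (x, y) i).2 ≤ T.b x + T.b y + 1 := by
  have hb := h.1
  rcases i with i | i | i | i | i | i <;> simp only [nb, ← hb]
  · exact ⟨R_p T h, trivial, by rw [T.bp]; omega⟩
  · exact ⟨R_ch T h _, trivial, by rw [bch]; omega⟩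
  · exact ⟨h, trivial, by rw [T.bp]; omega⟩
  · exact ⟨h, trivial, by rw [bch]; omega⟩
  · split_ifs
    · exact ⟨R_p T h, rfl, by simp only [T.bp, bch]; omega⟩
    · exact ⟨R_ch T (R_ch T h _) _, rfl, by simp only [T.bp, bch]; omega⟩
  · split_ifs
    · exact ⟨R_ch T h _, rfl, by simp only [T.bp, bch]; omega⟩
    · exact ⟨R_p T (R_p T h), rfl, by simp only [T.bp, bch]; omega⟩

noncomputable def w (τ : ℤ → Bool) (N j : ℤ) : ℝ :=
  if τ j then (if N ≤ j then 55 / 56 else 1) else 5 / 3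

noncomputable def aa (τ : ℤ → Bool) (N N' n : ℤ) : ℝ := ∏ j ∈ Ico n N', w τ N j

lemma w_pos (τ : ℤ → Bool) (N j : ℤ) : 0 < w τ N j := by
  unfold w; split_ifs <;> norm_num

lemma aa_pos (τ : ℤ → Bool) (N N' n : ℤ) : 0 < aa τ N N' n :=
  prod_pos fun j _ => w_pos τ N j

lemma aa_succ (τ : ℤ → Bool) (N N' n : ℤ) (h : n < N') :
    aa τ N N' n = w τ N n * aa τ N N' (n + 1) := by
  unfold aa
  rw [← prod_insert (s := Ico (n + 1) N') (by simp)]
  congr 1
  ext j; simp; omega

lemma aa_top (τ : ℤ → Bool) (N N' : ℤ) : aa τ N N' N' = 1 := by simp [aa]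

lemma aa_low (τ : ℤ → Bool) (N N' n : ℤ) :
    (55 / 56 : ℝ) ^ (Ico N N').card ≤ aa τ N N' n := by
  calc (55 / 56 : ℝ) ^ (Ico N N').card ≤ (55 / 56 : ℝ) ^ ((Ico n N').filter (N ≤ ·)).card := by
        apply pow_le_pow_of_le_one (by norm_num) (by norm_num)
        apply card_le_card
        intro j; simp; omega
    _ = ∏ j ∈ Ico n N', (if N ≤ j then (55 / 56 : ℝ) else 1) := by
        rw [prod_ite, prod_const, prod_const_one, mul_one]
    _ ≤ _ := by
        apply prod_le_prod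
        · intro j _; split_ifs <;> norm_num
        · intro j _; unfold w; split_ifs <;> norm_num

lemma aa_up (τ : ℤ → Bool) (N N' n : ℤ) (h1 : n ≤ N) (h2 : N ≤ N')
    (h : ∀ j, N ≤ j → j < N' → τ j = true) :
    aa τ N N' n ≤ (5 / 3 : ℝ) ^ (N - n).toNat * (55 / 56 : ℝ) ^ (N' - N).toNat := by
  unfold aa
  rw [← Ico_union_Ico_eq_Ico h1 h2, prod_union (Ico_disjoint_Ico_consecutive _ _ _)]
  apply mul_le_mul
  · rw [← Int.card_Ico, ← prod_const]
    apply prod_le_prod (fun j _ => (w_pos _ _ _).le)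
    intro j _; unfold w; split_ifs <;> norm_num
  · rw [← Int.card_Ico, ← prod_const]
    apply le_of_eq
    apply prod_congr rfl
    intro j hj
    rw [mem_Ico] at hj
    simp [w, h j hj.1 hj.2, hj.1]
  · exact prod_nonneg fun j _ => (w_pos _ _ _).le
  · positivity

noncomputable def Φ (τ : ℤ → Bool) (N N' c m l : ℤ) : ℝ := (4 / 3 : ℝ) ^ (m - c) * aa τ N N' (m + l)

lemma Φ_pos (τ : ℤ → Bool) (N N' c m l : ℤ) : 0 < Φ τ N N' c m l :=
  mul_pos (by positivity) (aa_pos _ _ _ _)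

lemma Φ_super (τ : ℤ → Bool) (N N' c m l : ℤ) (h : m + l < N') :
    op τ (Φ τ N N' c) m l ≤ 79 / 4 * Φ τ N N' c m l := by
  have z : ∀ k : ℤ, (4 / 3 : ℝ) ^ (m + k - c) = (4 / 3) ^ k * (4 / 3) ^ (m - c) := by
    intro k; rw [← zpow_add₀ (by norm_num)]; congr 1; ring
  have z' : ∀ k : ℤ, (4 / 3 : ℝ) ^ (m - k - c) = (4 / 3) ^ (-k) * (4 / 3) ^ (m - c) := by
    intro k; rw [← zpow_add₀ (by norm_num)]; congr 1; ring
  have a1 := aa_succ τ N N' (m + l) h
  have a0 := aa_succ τ N N' (m + l - 1) (by omega)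
  rw [sub_add_cancel] at a0
  have e1 : m - 1 + l = m + l - 1 := by ring
  have e2 : m + 1 + l = m + l + 1 := by ring
  have e3 : m + (l - 1) = m + l - 1 := by ring
  have e4 : m + (l + 1) = m + l + 1 := by ring
  have e5 : m - 1 + (l + 2) = m + l + 1 := by ring
  have e6 : m + 2 + (l - 1) = m + l + 1 := by ring
  have e7 : m + 1 + (l - 2) = m + l - 1 := by ring
  have e8 : m - 2 + (l + 1) = m + l - 1 := by ring
  simp only [op, Φ, z, z', e1, e2, e3, e4, e5, e6, e7, e8]
  have hT : 0 < (4 / 3 : ℝ) ^ (m - c) := by positivity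
  have hA := aa_pos τ N N' (m + l + 1)
  have hA0 := aa_pos τ N N' (m + l)
  generalize (4 / 3 : ℝ) ^ (m - c) = t at *
  generalize aa τ N N' (m + l + 1) = A1 at *
  generalize aa τ N N' (m + l) = A at *
  generalize aa τ N N' (m + l - 1) = A0 at *
  have p1 := mul_pos hT hA
  have p0 := mul_pos hT hA0
  have q1 : t * A = w τ N (m + l) * (t * A1) := by rw [a1]; ring
  have q0 : t * A0 = w τ N (m + l - 1) * (t * A) := by rw [a0]; ring
  unfold w at q1 q0
  norm_num
  split_ifs at * <;> nlinarith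

def Harm (τ : ℤ → Bool) (h : X × X → ℝ) : Prop := ∀ v, 20 * h v = ∑ i, h (nb T τ v i)

lemma barrier (τ : ℤ → Bool) (h : X × X → ℝ) (hh : Harm T τ h) (M : ℝ) (hM : 0 < M)
    (hb : ∀ v, |h v| ≤ M) (N N' c : ℤ) (x x' y : X) (hR : R T c x x') (hn : T.b x + T.b y ≤ N') :
    h (x, y) - h (x', y) ≤ 2 * M * Φ τ N N' c (T.b x) (T.b y) := by
  have := maxp (Ω := {q : X × X × X // R T c q.1 q.2.1 ∧ T.b q.1 + T.b q.2.2 ≤ N'})
    (fun q => h (q.1.1, q.1.2.2) - h (q.1.2.1, q.1.2.2) -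
      2 * M * Φ τ N N' c (T.b q.1.1) (T.b q.1.2.2))
    (M / 40 * (55 / 56 : ℝ) ^ (Ico N N').card) (2 * M) (by positivity) ?_ ?_ ⟨(x, x', y), hR, hn⟩
  · simpa using this
  · rintro ⟨⟨x, x', y⟩, -⟩
    have h1 := abs_le.1 (hb (x, y))
    have h2 := abs_le.1 (hb (x', y))
    have h3 := mul_pos hM (Φ_pos τ N N' c (T.b x) (T.b y))
    simp only; linarith
  · rintro δ hδ H ⟨⟨x, x', y⟩, hR, hn⟩
    simp only at hR hn ⊢
    have h1 := abs_le.1 (hb (x, y))
    have h2 := abs_le.1 (hb (x', y))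
    have h3 := mul_pos hM (Φ_pos τ N N' c (T.b x) (T.b y))
    by_cases hc : T.b x ≤ c
    · left
      have := hR.2 0 (by simpa using hc)
      simp only [Function.iterate_zero, id] at this
      subst this; linarith
    have h4 : (1 : ℝ) ≤ (4 / 3 : ℝ) ^ (T.b x - c) := one_le_zpow₀ (by norm_num) (by omega)
    rcases hn.eq_or_lt with hn | hn
    · left
      have : 1 ≤ Φ τ N N' c (T.b x) (T.b y) := by rw [Φ, hn, aa_top, mul_one]; exact h4
      nlinarith
    right
    have h5 : (55 / 56 : ℝ) ^ (Ico N N').card ≤ Φ τ N N' c (T.b x) (T.b y) :=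
      (aa_low τ N N' _).trans (le_mul_of_one_le_left (aa_pos _ _ _ _).le h4)
    have h6 : ∑ i, (h (nb T τ (x, y) i) - h (nb T τ (x', y) i)) ≤ ∑ i : I, (δ + 2 * M *
        Φ τ N N' c (T.b (nb T τ (x, y) i).1) (T.b (nb T τ (x, y) i).2)) := by
      apply sum_le_sum
      intro i _
      obtain ⟨r1, r2, r3⟩ := R_nb T τ hR y i
      have := H ⟨((nb T τ (x, y) i).1, (nb T τ (x', y) i).1, (nb T τ (x, y) i).2), r1, by
        simp only; omega⟩
      simp only [Prod.mk.eta] at this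
      rw [r2, Prod.mk.eta, ← r2] at this
      linarith
    rw [sum_sub_distrib, ← hh, ← hh, sum_add_distrib, ← mul_sum, sum_nb] at h6
    have h7 := Φ_super τ N N' c _ _ hn
    simp only [sum_const, card_univ, Fintype.card_sum, Fintype.card_unit, Fintype.card_fin,
      Fintype.card_prod, nsmul_eq_mul] at h6
    push_cast at h6
    nlinarith

def Good (τ : ℤ → Bool) : Prop :=
  ∀ k : ℕ, ∃ N : ℕ, k ≤ N ∧ ∀ j : ℤ, N ≤ j → j < 64 * N → τ j = true

lemma b_iter (x : X) (k : ℕ) : T.b (T.p^[k] x) = T.b x - k := by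
  induction k with
  | zero => simp
  | succ k ih => rw [Function.iterate_succ_apply', T.bp, ih]; push_cast; ring

lemma sib_le (τ : ℤ → Bool) (hτ : Good τ) (h : X × X → ℝ) (hh : Harm T τ h) (M : ℝ) (hM : 0 < M)
    (hb : ∀ v, |h v| ≤ M) (x x' y : X) (hx : T.b x = T.b x') : h (x, y) ≤ h (x', y) := by
  obtain ⟨i, j, hij⟩ := T.anc x x'
  have e : i = j := by
    have := congrArg T.b hij
    rw [b_iter, b_iter] at this; omega
  subst e
  have hR : R T (T.b x - i) x x' := by
    refine ⟨hx, fun k hk => ?_⟩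
    obtain ⟨d, rfl⟩ : ∃ d, k = d + i := ⟨k - i, by omega⟩
    rw [Function.iterate_add_apply, Function.iterate_add_apply, hij]
  set n := T.b x + T.b y with hn
  set C : ℝ := 2 * M * (4 / 3 : ℝ) ^ (i : ℤ) * (5 / 3) ^ n.natAbs with hC
  have hC0 : 0 < C := by positivity
  have lim := tendsto_pow_atTop_nhds_zero_of_lt_one
    (r := (5 / 3 * (55 / 56) ^ 63 : ℝ)) (by positivity) (by norm_num)
  have lim2 := lim.const_mul C
  rw [mul_zero] at lim2
  rw [← sub_nonpos]
  apply le_of_forall_pos_le_add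
  intro ε hε
  obtain ⟨k, hk⟩ := Filter.eventually_atTop.1 (lim2.eventually (gt_mem_nhds hε))
  obtain ⟨N, hN, hg⟩ := hτ (max k n.natAbs)
  have b1 := barrier T τ h hh M hM hb N (64 * N) (T.b x - i) x x' y hR (by omega)
  have b2 := aa_up τ N (64 * N) n (by omega) (by omega) hg
  have b3 := hk N (by omega)
  have e1 : ((64 : ℤ) * N - N).toNat = 63 * N := by omega
  have b4 : (5 / 3 : ℝ) ^ ((N : ℤ) - n).toNat ≤ (5 / 3) ^ (n.natAbs + N) :=
    pow_le_pow_right₀ (by norm_num) (by omega)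
  rw [e1] at b2
  rw [Φ, sub_sub_cancel, ← hn] at b1
  have b5 : aa τ N (64 * N) n ≤ (5 / 3) ^ n.natAbs * (5 / 3 * (55 / 56) ^ 63 : ℝ) ^ N := by
    refine b2.trans ?_
    rw [mul_pow, ← pow_mul, ← mul_assoc, ← pow_add]
    exact mul_le_mul_of_nonneg_right b4 (by positivity)
  have b6 : 2 * M * ((4 / 3 : ℝ) ^ (i : ℤ) * aa τ N (64 * N) n) ≤
      C * (5 / 3 * (55 / 56) ^ 63 : ℝ) ^ N := by
    rw [hC, mul_assoc (2 * M * _), ← mul_assoc]
    exact mul_le_mul_of_nonneg_left b5 (by positivity)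
  linarith

lemma harm_swap (τ : ℤ → Bool) (h : X × X → ℝ) (hh : Harm T τ h) :
    Harm T (fun j => !τ j) (fun v => h v.swap) := by
  rintro ⟨x, y⟩
  have := hh (y, x)
  simp only [Fintype.sum_sum_type, nb, Prod.swap, add_comm (T.b y) (T.b x)] at this ⊢
  rw [this]
  cases τ (T.b x + T.b y) <;> cases τ (T.b x + T.b y - 1) <;> simp <;> ring

lemma shift_le (τ : ℤ → Bool) (f : ℤ → ℤ → ℝ) (hf : ∀ m l, 20 * f m l = op τ f m l) (M : ℝ)
    (hb : ∀ m l, |f m l| ≤ M) (m l : ℤ) : f (m + 1) (l - 1) ≤ f m l := by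
  set d : ℤ × ℤ → ℝ := fun q => f (q.1 + 1) (q.2 - 1) - f q.1 q.2 with hd
  have bd : BddAbove (Set.range d) := by
    refine ⟨2 * M, ?_⟩
    rintro _ ⟨q, rfl⟩
    have h1 := abs_le.1 (hb (q.1 + 1) (q.2 - 1))
    have h2 := abs_le.1 (hb q.1 q.2)
    simp only [hd]; linarith
  set D := iSup d with hD
  have le : ∀ m l, d (m, l) ≤ D := fun m l => le_ciSup bd (m, l)
  have hdh : ∀ m l, 20 * d (m, l) = op τ (fun m l => d (m, l)) m l := by
    intro m l
    have h1 := hf (m + 1) (l - 1)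
    have h2 := hf m l
    simp only [hd, op] at h1 h2 ⊢
    rw [show m + 1 + (l - 1) = m + l by ring] at h1
    rw [mul_sub, h1, h2]
    split_ifs <;> ring_nf
  have st : ∀ m l, D - d (m + 1, l) ≤ 20 * (D - d (m, l)) ∧
      D - d (m, l - 1) ≤ 20 * (D - d (m, l)) := by
    intro m l
    have h1 := hdh m l
    simp only [op] at h1
    have := le (m - 1) l
    have := le (m + 1) l
    have := le m (l - 1)
    have := le m (l + 1)
    have := le (m - 1) (l + 2)
    have := le (m + 2) (l - 1)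
    have := le (m + 1) (l - 2)
    have := le (m - 2) (l + 1)
    split_ifs at h1 <;> constructor <;> linarith
  have it : ∀ m l (J : ℕ), D - d (m + J, l - J) ≤ 400 ^ J * (D - d (m, l)) ∧
      J * D - J * 400 ^ J * (D - d (m, l)) ≤ f (m + J) (l - J) - f m l := by
    intro m l J
    have e0 := sub_nonneg.2 (le m l)
    induction J with
    | zero => simp
    | succ J ih =>
      have h1 := (st (m + J) (l - J)).1
      have h2 := (st (m + J + 1) (l - J)).2
      have h3 : d (m + J, l - J) = f (m + J + 1) (l - J - 1) - f (m + J) (l - J) := rfl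
      push_cast
      rw [← add_assoc, ← sub_sub, pow_succ]
      have h4 : (0 : ℝ) ≤ 400 ^ J * (D - d (m, l)) := by positivity
      have h5 : (0 : ℝ) ≤ J * (400 ^ J * (D - d (m, l))) := by positivity
      constructor
      · linarith [ih.1]
      · nlinarith [ih.1, ih.2]
  have hD0 : D ≤ 0 := by
    by_contra hpos
    push Not at hpos
    obtain ⟨J, hJ⟩ := exists_nat_gt ((2 * M + 1) / D)
    rw [div_lt_iff₀ hpos] at hJ
    have hε : (0 : ℝ) < 1 / (J * 400 ^ J + 1) := by positivity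
    obtain ⟨⟨m, l⟩, hq⟩ := exists_lt_of_lt_ciSup (f := d) (sub_lt_self D hε)
    have h1 := (it m l J).2
    have h2 := abs_le.1 (hb (m + J) (l - J))
    have h3 := abs_le.1 (hb m l)
    have h4 : D - d (m, l) ≤ 1 / (J * 400 ^ J + 1) := by linarith
    have h5 : (J : ℝ) * 400 ^ J * (D - d (m, l)) ≤ 1 := by
      refine (mul_le_mul_of_nonneg_left h4 (by positivity)).trans ?_
      rw [mul_one_div, div_le_one (by positivity)]; linarith
    linarith
  have := le m l
  simp only [hd] at this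
  linarith

lemma level_const (τ : ℤ → Bool) (f : ℤ → ℤ → ℝ) (hf : ∀ m l, 20 * f m l = op τ f m l) (M : ℝ)
    (hb : ∀ m l, |f m l| ≤ M) (m l : ℤ) : f m l = f 0 0 := by
  have sh : ∀ m l, f (m + 1) (l - 1) = f m l := by
    intro m l
    apply le_antisymm (shift_le τ f hf M hb m l)
    have := shift_le τ (fun m l => -f m l) (fun m l => by
      have := hf m l
      simp only [op] at this ⊢
      split_ifs at this ⊢ <;> linarith) M (by simpa using hb) m l
    linarith
  have s2 : ∀ l m, f m l = f (m + l) 0 := by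
    intro l
    induction l using Int.induction_on with
    | zero => simp
    | succ l ih => intro m; rw [← sh, add_sub_cancel_right, ih]; congr 1; ring
    | pred l ih => intro m; rw [← sub_add_cancel m 1, sh, ih]; congr 1; ring
  set g : ℤ → ℝ := fun n => f n 0 with hg
  have rc : ∀ n, g n - g (n - 1) = 3 * (g (n + 1) - g n) := by
    intro n
    have := hf n 0
    simp only [op] at this
    rw [s2 (0 - 1), s2 (0 + 1), s2 (0 + 2), s2 (0 - 1), s2 (0 - 2), s2 (0 + 1) (n - 2)] at this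
    ring_nf at this
    simp only [ite_self] at this
    simp only [hg]
    ring_nf
    linarith
  have it : ∀ n (k : ℕ), g (n - k + 1) - g (n - k) = 3 ^ k * (g (n + 1) - g n) := by
    intro n k
    induction k with
    | zero => simp
    | succ k ih =>
      have := rc (n - k)
      push_cast
      rw [← sub_sub, sub_add_cancel, this, ih]; ring
  have z : ∀ n, g (n + 1) = g n := by
    intro n
    by_contra hne
    have hp : 0 < |g (n + 1) - g n| := abs_pos.2 (sub_ne_zero.2 hne)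
    obtain ⟨k, hk⟩ := pow_unbounded_of_one_lt (2 * M / |g (n + 1) - g n|) (by norm_num : (1 : ℝ) < 3)
    rw [div_lt_iff₀ hp] at hk
    have h1 := congrArg abs (it n k)
    rw [abs_mul, abs_of_pos (by positivity : (0 : ℝ) < 3 ^ k)] at h1
    have h2 := abs_sub (g (n - k + 1)) (g (n - k))
    have h3 := hb (n - k + 1) 0
    have h4 := hb (n - k) 0
    simp only [hg] at h1 h2 hk
    linarith
  have z2 : ∀ n, g n = g 0 := by
    intro n
    induction n using Int.induction_on with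
    | zero => rfl
    | succ n ih => rw [z, ih]
    | pred n ih => rw [← z, sub_add_cancel, ih]
  rw [s2]; exact z2 _

theorem liouville (τ : ℤ → Bool) (h1 : Good τ) (h2 : Good fun j => !τ j) (h : X × X → ℝ)
    (hh : Harm T τ h) (M : ℝ) (hb : ∀ v, |h v| ≤ M) (v v' : X × X) : h v = h v' := by
  have hb' : ∀ v, |h v| ≤ M + 1 := fun v => by linarith [hb v]
  have hM : 0 < M + 1 := by linarith [hb v, abs_nonneg (h v)]
  have sur : ∀ m : ℤ, ∃ x, T.b x = m := by
    obtain ⟨x0⟩ := T.ne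
    have : ∀ k : ℤ, ∃ x, T.b x = T.b x0 + k := by
      intro k
      induction k using Int.induction_on with
      | zero => exact ⟨x0, by simp⟩
      | succ k ih => obtain ⟨x, hx⟩ := ih; exact ⟨T.ch x 0, by rw [bch, hx]; ring⟩
      | pred k ih => obtain ⟨x, hx⟩ := ih; exact ⟨T.p x, by rw [T.bp, hx]; ring⟩
    intro m
    simpa using this (m - T.b x0)
  choose pt hpt using sur
  have A : ∀ x x' y, T.b x = T.b x' → h (x, y) = h (x', y) := fun x x' y hx =>
    le_antisymm (sib_le T τ h1 h hh _ hM hb' x x' y hx) (sib_le T τ h1 h hh _ hM hb' x' x y hx.symm)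
  have B : ∀ x y y', T.b y = T.b y' → h (x, y) = h (x, y') := fun x y y' hy =>
    le_antisymm (sib_le T _ h2 _ (harm_swap T τ h hh) _ hM (fun v => hb' _) y y' x hy)
      (sib_le T _ h2 _ (harm_swap T τ h hh) _ hM (fun v => hb' _) y' y x hy.symm)
  have E : ∀ v, h v = h (pt (T.b v.1), pt (T.b v.2)) := fun v =>
    (A _ _ _ (hpt _).symm).trans (B _ _ _ (hpt _).symm)
  have L := level_const τ (fun m l => h (pt m, pt l)) (fun m l => by
    rw [hh, sum_congr rfl fun i _ => E _]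
    have := sum_nb T τ (fun m l => h (pt m, pt l)) (pt m, pt l)
    simpa only [hpt] using this) M (fun m l => hb _)
  rw [E v, E v']
  exact (L _ _).trans (L _ _).symm

end Pool.Agent.H.MP_94e09c_pr
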