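import Pool.Agent.H.MP_94e09c_pr.B

namespace Pool.Agent.H.MP_94e09c_pr
open Finset

variable {X : Type} (T : Tr X)

lemma nb_ne (τ : ℤ → Bool) (v : X × X) (i : I) : nb T τ v i ≠ v := by
  intro h
  have h1 := congrArg (fun q => T.b q.1 + T.b q.2) h
  rcases i with i | i | i | i | i | i <;> simp only [nb] at h1 <;>
    (try split_ifs at h1) <;> simp only [T.bp, bch] at h1 <;> omega

lemma nb_symm (τ : ℤ → Bool) (v : X × X) (i : I) : ∃ j, nb T τ (nb T τ v i) j = v := by
  obtain ⟨x, y⟩ := v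
  rcases i with i | i | i | i | i | i
  · obtain ⟨k, hk⟩ := T.sur x
    exact ⟨.inr (.inl k), by simp [nb, hk]⟩
  · exact ⟨.inl (), by simp [nb, T.pch]⟩
  · obtain ⟨k, hk⟩ := T.sur y
    exact ⟨.inr (.inr (.inr (.inl k))), by simp [nb, hk]⟩
  · exact ⟨.inr (.inr (.inl ())), by simp [nb, T.pch]⟩
  · by_cases h : τ (T.b x + T.b y) = true
    · obtain ⟨k, hk⟩ := T.sur x
      refine ⟨.inr (.inr (.inr (.inr (.inr k)))), ?_⟩
      have e : T.b x + (T.b y + 1) - 1 = T.b x + T.b y := by ring
      simp [nb, h, T.bp, bch, e, hk, T.pch]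
    · obtain ⟨k, hk⟩ := T.sur y
      refine ⟨.inr (.inr (.inr (.inr (.inr k)))), ?_⟩
      have e : T.b x + 1 + T.b y - 1 = T.b x + T.b y := by ring
      simp [nb, h, T.bp, bch, e, hk, T.pch]
  · by_cases h : τ (T.b x + T.b y - 1) = true
    · obtain ⟨k, hk⟩ := T.sur y
      obtain ⟨k', hk'⟩ := T.sur (T.p y)
      refine ⟨.inr (.inr (.inr (.inr (.inl (k', k))))), ?_⟩
      have e : T.b x + 1 + (T.b y - 1 - 1) = T.b x + T.b y - 1 := by ring
      simp only [nb, h, T.bp, bch, e, hk, hk', T.pch, if_true]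
    · obtain ⟨k, hk⟩ := T.sur x
      obtain ⟨k', hk'⟩ := T.sur (T.p x)
      refine ⟨.inr (.inr (.inr (.inr (.inl (k', k))))), ?_⟩
      have e : T.b x - 1 - 1 + (T.b y + 1) = T.b x + T.b y - 1 := by ring
      simp only [nb, h, T.bp, bch, e, hk, hk', T.pch, if_false, Bool.false_eq_true]

lemma chch (x : X) (i j : Fin 3 × Fin 3) (h : T.ch (T.ch x i.1) i.2 = T.ch (T.ch x j.1) j.2) :
    i = j := by
  have h1 := congrArg T.p h
  rw [T.pch, T.pch] at h1
  rw [h1] at h
  exact Prod.ext (T.inj _ h1) (T.inj _ h)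

lemma nb_inj (τ : ℤ → Bool) (v : X × X) : Function.Injective (nb T τ v) := by
  intro i j h
  have h1 := congrArg (fun q => T.b q.1) h
  have h2 := congrArg (fun q => T.b q.2) h
  have h3 := congrArg Prod.fst h
  have h4 := congrArg Prod.snd h
  clear h
  rcases i with i | i | i | i | i | i <;> rcases j with j | j | j | j | j | j <;>
    simp only [nb] at h1 h2 h3 h4 <;> (try split_ifs at h1 h2 h3 h4) <;>
    (try simp only [T.bp, bch] at h1 h2) <;> (try dsimp only at h3 h4) <;>
    first | omega | rfl | rw [T.inj _ h3] | rw [T.inj _ h4] | rw [chch T _ _ _ h3] |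
      rw [chch T _ _ _ h4]

def G (τ : ℤ → Bool) : SimpleGraph (X × X) where
  Adj v w := ∃ i, nb T τ v i = w
  symm := ⟨by rintro v _ ⟨i, rfl⟩; exact nb_symm T τ v i⟩
  loopless := ⟨by rintro v ⟨i, h⟩; exact nb_ne T τ v i h⟩

noncomputable instance lf (τ : ℤ → Bool) : (G T τ).LocallyFinite := fun v =>
  (Set.finite_range (nb T τ v)).fintype

open Classical in
lemma nbF (τ : ℤ → Bool) (v : X × X) : (G T τ).neighborFinset v = univ.image (nb T τ v) := by
  ext w; simp [G]

lemma deg (τ : ℤ → Bool) (v : X × X) : (G T τ).degree v = 20 := by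
  classical
  rw [← SimpleGraph.card_neighborFinset_eq_degree, nbF, card_image_of_injective _ (nb_inj T τ v)]
  simp

def τ0 (j : ℤ) : Bool := decide (Even (Nat.log 64 j.toNat))

lemma log_eq (k : ℕ) (j : ℤ) (h1 : ((64 ^ k : ℕ) : ℤ) ≤ j) (h2 : j < 64 * ((64 ^ k : ℕ) : ℤ)) :
    Nat.log 64 j.toNat = k := by
  apply Nat.log_eq_of_pow_le_of_lt_pow
  · omega
  · rw [pow_succ]; omega

lemma good1 : Good τ0 := by
  intro k
  refine ⟨64 ^ (2 * k), ?_, fun j h1 h2 => ?_⟩
  · have := Nat.lt_pow_self (n := 2 * k) (by norm_num : 1 < 64); omega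
  · simp [τ0, log_eq _ j h1 h2]

lemma good2 : Good fun j => !τ0 j := by
  intro k
  refine ⟨64 ^ (2 * k + 1), ?_, fun j h1 h2 => ?_⟩
  · have := Nat.lt_pow_self (n := 2 * k + 1) (by norm_num : 1 < 64); omega
  · simp [τ0, log_eq _ j h1 h2]

theorem G_liou (h : X × X → ℝ)
    (hh : ∀ v, ((G T τ0).degree v : ℝ) * h v = ∑ w ∈ (G T τ0).neighborFinset v, h w)
    (M : ℝ) (hb : ∀ v, |h v| ≤ M) (v v' : X × X) : h v = h v' := by
  classical
  refine liouville T τ0 good1 good2 h (fun v => ?_) M hb v v'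
  have := hh v
  rw [deg, nbF, sum_image (fun i _ j _ hij => nb_inj T τ0 v hij)] at this
  exact_mod_cast this

lemma cay_conn {Γ : Type} [Group Γ] (S : Finset Γ) (hS : Subgroup.closure (S : Set Γ) = ⊤) :
    (SimpleGraph.fromRel (fun a b : Γ => a⁻¹ * b ∈ S)).Connected := by
  have st : ∀ x s : Γ, s ∈ S →
      (SimpleGraph.fromRel (fun a b : Γ => a⁻¹ * b ∈ S)).Reachable x (x * s) := by
    intro x s hs
    by_cases h : x = x * s
    · rw [← h]
    · exact SimpleGraph.Adj.reachable (by simp only [SimpleGraph.fromRel_adj]; exact ⟨h, by simp [hs]⟩)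
  rw [SimpleGraph.connected_iff_exists_forall_reachable]
  refine ⟨1, fun x => ?_⟩
  have hx : x ∈ Subgroup.closure (S : Set Γ) := by rw [hS]; trivial
  induction hx using Subgroup.closure_induction_right with
  | one => rfl
  | mul_right x hx y hy ih => exact ih.trans (st x y hy)
  | mul_inv_cancel x hx y hy ih =>
    have := st (x * y⁻¹) y hy
    rw [inv_mul_cancel_right] at this
    exact ih.trans this.symm

lemma dist_le_mul {V : Type} (G H : SimpleGraph V) (hG : G.Connected) (hH : H.Connected) (k : ℕ)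
    (h : ∀ v w, G.Adj v w → H.dist v w ≤ k) (v w : V) : H.dist v w ≤ k * G.dist v w := by
  obtain ⟨p, hp⟩ := hG.exists_walk_length_eq_dist v w
  rw [← hp]
  clear hp
  induction p with
  | nil => simp
  | cons a p ih =>
    rw [SimpleGraph.Walk.length_cons, mul_add, mul_one, add_comm]
    exact (hH.dist_triangle).trans (add_le_add (h _ _ a) ih)

def S : Finset (F × F) :=
  univ.image (fun a => (FreeGroup.of a, 1)) ∪ univ.image (fun a => (1, FreeGroup.of a))

lemma S1 (a : Fin 2) : (FreeGroup.of a, 1) ∈ S := by simp [S]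
lemma S2 (a : Fin 2) : (1, FreeGroup.of a) ∈ S := by simp [S]

lemma S_top : Subgroup.closure (S : Set (F × F)) = ⊤ := by
  rw [eq_top_iff]
  rintro ⟨x, y⟩ -
  have h1 : ∀ x : F, (x, (1 : F)) ∈ Subgroup.closure (S : Set (F × F)) := by
    intro x
    induction x using FreeGroup.induction_on with
    | C1 => exact one_mem _
    | of a => exact Subgroup.subset_closure (S1 a)
    | inv_of a h => simpa using inv_mem h
    | mul x y hx hy => simpa using mul_mem hx hy
  have h2 : ∀ x : F, ((1 : F), x) ∈ Subgroup.closure (S : Set (F × F)) := by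
    intro x
    induction x using FreeGroup.induction_on with
    | C1 => exact one_mem _
    | of a => exact Subgroup.subset_closure (S2 a)
    | inv_of a h => simpa using inv_mem h
    | mul x y hx hy => simpa using mul_mem hx hy
  simpa using mul_mem (h1 x) (h2 y)

end Pool.Agent.H.MP_94e09c_pr
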